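import Pool.Agent.R587.VL
import Pool.Agent.R587.VocRed

/-!
# Categoricity of complete recursively axiomatized second-order theories under `V = L`
-/

set_option autoImplicit false

namespace Pool.Agent.Results.MP_cba9f6_lc.Solovay

open Pool.Agent.R587

/-- Under `V = L`, every complete, recursively axiomatized second-order theory, in a finite
vocabulary with the relation symbols `0, ..., m - 1` of arities `ar` and the function symbols
`0, ..., l - 1` of arities `af` (constants are function symbols of arity `0`), is categorical. -/
theorem result (hV : VL) {m l : ℕ} (ar : Fin m → ℕ) (af : Fin l → ℕ) (T : Set (Voc.Fo ar af))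
    (hT : Voc.IsTheory T) (hc : Voc.CompleteT T) (hr : Voc.RecAx T) : Voc.CategoricalT T := by
  have _ := hT
  obtain ⟨_, _, _, _, hc', hr', _, h⟩ := Voc.reduce hc hr
  exact h (categorical_of_VLv hV.vlv hc' hr')

end Pool.Agent.Results.MP_cba9f6_lc.Solovay
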